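import Pool.Agent.Y970.PX.Stm

set_option autoImplicit false

/-! # A quadratic inequality -/

namespace Pool.Agent.Y419.PX.Num

open Pool.Agent.Y970.PX

theorem core {S ρ a b e e1 η : ℝ} (hS : 100000 ≤ S) (hρ0 : 0 ≤ ρ) (hρ : ρ ≤ 1 / 10)
    (he0 : 0 ≤ e1) (he : e ≤ ρ * S) (he1 : e1 ≤ ρ * S) (ha1 : 42 / 100 * S - 1 ≤ a)
    (ha2 : a ≤ 42 / 100 * S) (hb1 : 577 / 1000 * S - 1 ≤ b)
    (h : a * b * (1 - ρ - 1 / 250) ≤ a * η + (e + e1) * (S - η) - e * e1 + 1)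
    (hη : η < ρ * S + S / 50) : False := by
  have hR : ρ * S ≤ 1 / 10 * S := mul_le_mul_of_nonneg_right hρ (by linarith)
  have hR0 : 0 ≤ ρ * S := mul_nonneg hρ0 (by linarith)
  have g1 : 0 ≤ (ρ * S - e) * (S - η - e1) := mul_nonneg (by linarith) (by linarith)
  have g2 : 0 ≤ (ρ * S - e1) * (S - η - ρ * S) := mul_nonneg (by linarith) (by linarith)
  have g3 : 0 ≤ (a - 2 * (ρ * S)) * (ρ * S + S / 50 - η) := mul_nonneg (by linarith) (by linarith)
  have g4 : 0 ≤ (42 / 100 * S - a) * (ρ * S + S / 50) := mul_nonneg (by linarith) (by linarith)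
  have g5 : (42 / 100 * S - 1) * (577 / 1000 * S - 1) ≤ a * b :=
    mul_le_mul ha1 hb1 (by linarith) (by linarith)
  have g6 : (42 / 100 * S - 1) * (577 / 1000 * S - 1) * (1 - ρ - 1 / 250) ≤
      a * b * (1 - ρ - 1 / 250) := mul_le_mul_of_nonneg_right g5 (by linarith)
  -- the right hand side
  have g7 : a * η + (e + e1) * (S - η) - e * e1 + 1 ≤
      (42 / 100 * S - 2 * (ρ * S)) * (ρ * S + S / 50) + 2 * (ρ * S) * S - (ρ * S) ^ 2 + 1 := by
    nlinarith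
  have g8 := (g6.trans h).trans g7
  -- the final inequality
  have g9 : 0 ≤ S ^ 2 * (3 * (1 / 10 - ρ) ^ 2 + 202 / 100 * (1 / 10 - ρ)) := by
    have : 0 ≤ 1 / 10 - ρ := by linarith
    positivity
  have g10 : 0 ≤ S * (997 / 1000 * ρ) := by positivity
  have g11 : 100000 * S ≤ S ^ 2 := by nlinarith
  have g12 : 0 ≤ S ^ 2 * (1 / 10 - ρ) := by
    have : 0 ≤ 1 / 10 - ρ := by linarith
    positivity
  nlinarith

theorem main : NUMStm := by
  refine ⟨100000, fun s r e e1 hs hr he he1 η _ h => ?_⟩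
  by_contra hcon
  push Not at hcon
  have hS : (100000 : ℝ) ≤ s := by exact_mod_cast hs
  have hS0 : (s : ℝ) ≠ 0 := by linarith
  obtain ⟨ρ, hρ⟩ : ∃ ρ : ℝ, ρ = (r : ℝ) / s := ⟨_, rfl⟩
  have hρS : ρ * s = r := by
    rw [hρ]
    field_simp
  have hr' : (10 : ℝ) * r ≤ s := by exact_mod_cast hr
  have hfl : ∀ c n : ℕ, 0 < n → (c : ℝ) / n * s - 1 ≤ ((c * s / n : ℕ) : ℝ) ∧
      ((c * s / n : ℕ) : ℝ) ≤ (c : ℝ) / n * s := by
    intro c n hn
    have hn' : (0 : ℝ) < n := by exact_mod_cast hn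
    have h1 : ((c * s / n : ℕ) : ℝ) * n ≤ (c : ℝ) * s := by
      exact_mod_cast Nat.div_mul_le_self (c * s) n
    have h2 : (c : ℝ) * s < (((c * s / n : ℕ) : ℝ) + 1) * n := by
      exact_mod_cast Nat.lt_mul_of_div_lt (Nat.lt_succ_self (c * s / n)) hn
    constructor
    · rw [sub_le_iff_le_add, div_mul_eq_mul_div, div_le_iff₀ hn']
      exact h2.le
    · rw [div_mul_eq_mul_div, le_div_iff₀ hn']
      exact h1
  have f1 := hfl 42 100 (by norm_num)
  have f2 := hfl 577 1000 (by norm_num)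
  push_cast at f1 f2
  rw [← hρ] at h
  push_cast at h
  refine core (S := s) (ρ := ρ) (a := ((42 * s / 100 : ℕ) : ℝ)) (b := ((577 * s / 1000 : ℕ) : ℝ))
    (e := e) (e1 := e1) (η := η) hS (by rw [hρ]; positivity) ?_ (by positivity) ?_ ?_ ?_ ?_ ?_ ?_ ?_
  · rw [hρ, div_le_iff₀ (by linarith)]
    linarith
  · rw [hρS]
    exact_mod_cast he
  · rw [hρS]
    exact_mod_cast he1
  · push_cast
    exact f1.1
  · push_cast
    exact f1.2
  · push_cast
    exact f2.1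
  · push_cast
    exact h
  · rw [hρS]
    exact hcon

end Pool.Agent.Y419.PX.Num
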